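import Pool.Agent.Lib.SkN.Main

set_option autoImplicit false

/-!
# Skryabin's equivalence for all restricted Lie algebras in characteristic two

Let `k` be an algebraically closed field of characteristic `2`, `L` a finite dimensional restricted Lie algebra over `k` and
`χ` a linear form on `L`.  Then the reduced enveloping algebra `u(L, χ)` is simple if and only if `Z_L(χ) = 0`.  The
statement is the frozen statement S01579 for `p = 2`.

Sketch, `Z_L(χ) = 0` implies simple.  Put `U = U(L)`, `X(y) = y^2 - f(y)` (central) and let `e_j` be a basis of `L`.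
* The matrix `([e_j, e_l])` has no kernel in `U^n` (leading symbols), and `U` is a finite module over its center, so there
  are `u_j` in `U` and a nonzero central `d` with `∑ u_j [e_j, y] = d y` for all `y`.  Uniqueness gives
  `[x, u_j] = ∑_l c^j(x, e_l) u_l`, and `∑ u_j e_j` is central.
* A descent on the degree shows that the `u_j` commute and that `∑ u_j ⊗ e_j` is toral up to the factor `d`.
  It follows that `u_j^2` is central and `d^2 X(y) = ∑ u_j^2 X([e_j, y])`, so `Π u_j^2` lies in `d^2 Z(U)` with
  `Π = det (X([e_j, e_l]))` by Cramer's rule.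
* A maximal order argument with leading symbols in a polynomial ring gives `Π u_j = d v_j` with `v_j` in `U`.
* On a module with character `χ` the `v_j` give commuting operators `n_j` of square zero such that
  `[y, n_j] = π ([y, T])^j + ∑_l c^j(y, e_l) n_l`, where `π ≠ 0` and `χ([T, y]) = χ(y)` for all `y`.  Hence a product
  of `rank (ad T) ≥ (dim L) / 2` elements of square zero is nonzero and `dim V ≥ 2^(dim L / 2)`.

Sketch, simple implies `Z_L(χ) = 0`, for Frobenius `L` (some `ξ` has `Z_L(ξ) = 0`).  For `a, τ` in `k` let `A(a, τ)` be the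
algebra generated by `Y(x)`, `x` in `L`, with the relations `Y(x)^2 = a Y(f x) + χ'(f x)`,
`Y(x) Y(y) + Y(y) Y(x) = a Y([x, y]) + χ'([x, y])`, `χ' = χ + τ ξ`.  For `a ≠ 0` it is `u(L, a^{-2} χ')`, for `a = 0` a Clifford
algebra.  The determinant `Δ(a, τ)` of the operators `x ↦ E x E'` (`E`, `E'` ordered monomials) is a polynomial, it does not
vanish where `A(a, τ)` is simple, so for the infinitely many `τ` with `Z_L(χ') = 0` it has no zero as a polynomial in `a` and is
constant.  So `Δ(1, 0) = Δ(0, 0)`, and this vanishes if `Z_L(χ) ≠ 0`.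

Sketch, `L` not Frobenius implies never simple.  Suppose `u(L, χ)` is simple, `Z_L(χ)` of minimal dimension `r ≥ 1` among such `χ`
(an open condition on `χ`).
* Polynomial families in the stabilizers `Z_L(χ + c ξ)` show that `Z_L(χ)` is abelian.
* Suppose `t ≠ 0` in `Z_L(χ)` is toral.  In the algebra `A` over `k[s]` generated by `Y(x)` with the relations above (`a = s`),
  `D = s^{-1} ad Y(t)` is a derivation with `D^2 = D`, there is `a` in `A` with `D a = 0` and `D - ad a` divisible by `s`, so
  `D - ad a^(2^j)` is divisible by `s^(2^j)`: `Y(t) - s a^(2^j)` is central modulo `s^(2^j + 1)`.  By Artin-Rees and since the center at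
  `s = 1` is `k`, `Y(t)` lies in `k[s] + s A`, a contradiction.
* So `f` is nilpotent on the stabilizers.  Let `x = f^K(ν) ≠ 0` with `K` maximal.  The families `x(c) = x + c x_1 + c^2 x_2 + ...` in
  `Z_L(χ + c ξ)` satisfy `f(x(c)) = 0`, so `[x, x_1] = 0` and `f(x_1) = [x, x_2]`.  Suitable `ξ` give: the orthogonal space of
  `C = C_L(x)` lies in `C`, and `E = [x, L]` is closed under `f`.
* `χ(E) = 0`, and `u(C/E, χ)` is simple (it acts on the `E`-invariants of the simple `u(L, χ)`-module).  By induction on the dimension
  the orthogonal space of `C` in `C` is `E`, but its dimension is at least `dim E + 1`.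
-/

theorem Pool.Agent.Results.MP_5b6908_al.CharTwo.result :
    ∀ (k : Type) [Field k] [IsAlgClosed k] [CharP k 2]
      (L : Type) [LieRing L] [LieAlgebra k L] [FiniteDimensional k L] (f : L → L),
      (∀ x y : L,
        UniversalEnvelopingAlgebra.ι k (x + y) ^ 2 - UniversalEnvelopingAlgebra.ι k (f (x + y)) =
          (UniversalEnvelopingAlgebra.ι k x ^ 2 - UniversalEnvelopingAlgebra.ι k (f x)) +
          (UniversalEnvelopingAlgebra.ι k y ^ 2 - UniversalEnvelopingAlgebra.ι k (f y))) →
      (∀ (a : k) (x : L),
        UniversalEnvelopingAlgebra.ι k (a • x) ^ 2 - UniversalEnvelopingAlgebra.ι k (f (a • x)) =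
          a ^ 2 • (UniversalEnvelopingAlgebra.ι k x ^ 2 - UniversalEnvelopingAlgebra.ι k (f x))) →
      (∀ x y : L,
        Commute (UniversalEnvelopingAlgebra.ι k x ^ 2 - UniversalEnvelopingAlgebra.ι k (f x))
          (UniversalEnvelopingAlgebra.ι k y)) →
      ∀ χ : Module.Dual k L,
        (IsSimpleRing
            (RingQuot (fun a b : UniversalEnvelopingAlgebra k L =>
              ∃ x : L, a = UniversalEnvelopingAlgebra.ι k x ^ 2 - UniversalEnvelopingAlgebra.ι k (f x) ∧
                b = algebraMap k (UniversalEnvelopingAlgebra k L) (χ x ^ 2))) ↔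
          ∀ x : L, (∀ y : L, χ ⁅x, y⁆ = 0) → x = 0) := by
  intro k _ _ _ L _ _ _ f h1 h2 h3 χ
  exact Pool.Agent.SkN.main_theorem ⟨h1, h2, h3⟩ χ
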