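import Pool.Agent.Lib.SkH.Main

set_option autoImplicit false

/-!
# Skryabin's equivalence for restricted Lie algebras with small simple factors, `p` odd

Let `k` be an algebraically closed field of characteristic `p > 2` and `L` a finite dimensional restricted
Lie algebra.  Suppose that there are finitely many homomorphisms of Lie algebras `φ i : L → S i` whose common
kernel is contained in a solvable ideal of `L`, and such that for every `i` the dimension of `S i` is at most three
or `6 ^ dim (S i) < p`.  Then for every linear form `χ` on `L` the reduced enveloping algebra `u(L, χ)` is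
simple if and only if `Z_L(χ) = 0`.

So the equivalence holds for all `L` such that `L / rad L` is a sum of copies of `sl_2` (every `p > 2`), for all
`L` whose solvable radical has codimension `n` with `6 ^ n < p` (or `n ≤ 3`), and in particular for all `L` with
`6 ^ dim L < p`.  The statement is the frozen statement S01579 with these hypotheses added.

Sketch.  Induction on the dimension, for both directions in parallel.
* If there is an abelian ideal `M` of dimension at least two, put `K = M ∩ ker χ`; then `L` is replaced by
  `K^⊥ / K`, and the irreducible representations correspond, the dimension being multiplied by `p^{dim K}`.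
* If there are no abelian ideals, the Killing form of `L` is nondegenerate by an effective form of Cartan's criterion
  (the eigenvalues of a semisimple element are replaced by Freiman homomorphisms, and a Gram determinant bound
  `≤ 6^n < p` replaces positivity).  Then `χ = κ(x, ·)` has `x ∈ Z(χ)`, and the Casimir element is a nonscalar central
  element of `u(L, χ)`.
* If the abelian ideals have dimension one, let `k z` be one of them and `H` maximal among the ideals with
  `k z ≤ H ≤ C(z)`, `[H, H] ≤ k z`.  Then `C(z)/H` has nondegenerate Killing form, so `H² (C(z)/H) = 0`; this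
  contradicts `Z(χ) = 0` unless `C(z) = H`; if `u(L, χ)` is simple, `C(z)/H` acts on the irreducible module
  of the Weyl algebra of `H` by quadratic elements, and subtracting them gives a representation of `C(z)/H` commuting with `H`
  whose Casimir element is central but not scalar.  So `C(z) = H`, and then `dim L = 2`.
-/

open Module in
theorem Pool.Agent.Results.MP_5b6908_al.SmallSimpleFactors.result :
    ∀ (k : Type) [Field k] [IsAlgClosed k] (p : ℕ) [Fact p.Prime] [CharP k p] (_ : p ≠ 2)
      (L : Type) [LieRing L] [LieAlgebra k L] [FiniteDimensional k L]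
      (m : ℕ) (S : Fin m → Type) [∀ i, LieRing (S i)] [∀ i, LieAlgebra k (S i)]
      [∀ i, FiniteDimensional k (S i)] (φ : ∀ i, L →ₗ⁅k⁆ S i) (I : LieIdeal k L),
      LieAlgebra.IsSolvable I → (∀ x : L, (∀ i, φ i x = 0) → x ∈ I) →
      (∀ i, finrank k (S i) ≤ 3 ∨ 6 ^ finrank k (S i) < p) →
      ∀ (f : L → L),
      (∀ x y : L,
        UniversalEnvelopingAlgebra.ι k (x + y) ^ p - UniversalEnvelopingAlgebra.ι k (f (x + y)) =
          (UniversalEnvelopingAlgebra.ι k x ^ p - UniversalEnvelopingAlgebra.ι k (f x)) +
          (UniversalEnvelopingAlgebra.ι k y ^ p - UniversalEnvelopingAlgebra.ι k (f y))) →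
      (∀ (a : k) (x : L),
        UniversalEnvelopingAlgebra.ι k (a • x) ^ p - UniversalEnvelopingAlgebra.ι k (f (a • x)) =
          a ^ p • (UniversalEnvelopingAlgebra.ι k x ^ p - UniversalEnvelopingAlgebra.ι k (f x))) →
      (∀ x y : L,
        Commute (UniversalEnvelopingAlgebra.ι k x ^ p - UniversalEnvelopingAlgebra.ι k (f x))
          (UniversalEnvelopingAlgebra.ι k y)) →
      ∀ χ : Module.Dual k L,
        (IsSimpleRing
            (RingQuot (fun a b : UniversalEnvelopingAlgebra k L =>
              ∃ x : L, a = UniversalEnvelopingAlgebra.ι k x ^ p - UniversalEnvelopingAlgebra.ι k (f x) ∧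
                b = algebraMap k (UniversalEnvelopingAlgebra k L) (χ x ^ p))) ↔
          ∀ x : L, (∀ y : L, χ ⁅x, y⁆ = 0) → x = 0) := by
  intro k _ _ p _ _ hp2 L _ _ _ m S _ _ _ φ I hI hker hS f h1 h2 h3 χ
  exact Pool.Agent.SkH.main_small k p hp2 L m S
    (fun i => ⟨inferInstance, (hS i).imp (fun h => ⟨hp2, h⟩) id⟩) φ I hI hker f ⟨h1, h2, h3⟩ χ
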